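import Mathlib
import Pool.Graph.R_seed8.R198.MOFFinal

/-! Oriented zero forcing: definitions, the forcing closure, and graphs joined by a bridge. -/

set_option autoImplicit false

namespace Pool.Agent.H41.OZ

/-- `D` (with `D u v` for: `(u, v)` is an arc) is an orientation of `G`: every edge `uv` is
replaced by exactly one of the arcs `(u, v)`, `(v, u)`. -/
structure IsOrientation {V : Type} (G : SimpleGraph V) (D : V → V → Prop) : Prop where
  arc_adj : ∀ u v, D u v → G.Adj u v
  adj_arc : ∀ u v, G.Adj u v → D u v ∨ D v u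
  asymm : ∀ u v, D u v → ¬ D v u

/-- One round of the colour change rule: `C` is the set of coloured vertices; every coloured
vertex `u` with at most one non-coloured out-neighbour colours its out-neighbours. -/
def step {V : Type} (D : V → V → Prop) (C : Set V) : Set V :=
  C ∪ {v | ∃ u ∈ C, D u v ∧ {w | D u w ∧ w ∉ C}.ncard ≤ 1}

/-- `S` is a forcing set of `D`: it is nonempty and after some number of rounds every vertex is
coloured. -/
def IsForcing {V : Type} (D : V → V → Prop) (S : Finset V) : Prop :=
  S.Nonempty ∧ ∃ t : ℕ, (step D)^[t] (S : Set V) = Set.univ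

/-- `F D`, the least size of a forcing set of `D`. -/
noncomputable def F {V : Type} (D : V → V → Prop) : ℕ :=
  sInf {m | ∃ S : Finset V, IsForcing D S ∧ S.card = m}

/-- `MOF G`, the largest value of `F D` over the orientations `D` of `G`. -/
noncomputable def MOF {V : Type} (G : SimpleGraph V) : ℕ :=
  sSup {m | ∃ D : V → V → Prop, IsOrientation G D ∧ F D = m}

/-- The vertices which are coloured in the end. -/
inductive Col {V : Type} (D : V → V → Prop) (S : Finset V) : V → Prop
  | base (v : V) : v ∈ S → Col D S v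
  | force (u v : V) : Col D S u → D u v → (∀ w, D u w → w ≠ v → Col D S w) → Col D S v

section
variable {V W : Type}

lemma step_mono_iter (D : V → V → Prop) (S : Set V) {t t' : ℕ} (h : t ≤ t') :
    (step D)^[t] S ⊆ (step D)^[t'] S := by
  induction h with
  | refl => exact subset_rfl
  | step _ ih =>
    rw [Function.iterate_succ_apply']
    exact ih.trans Set.subset_union_left

lemma col_iter [Finite V] {D : V → V → Prop} {S : Finset V} {v : V} (h : Col D S v) :
    ∃ t : ℕ, v ∈ (step D)^[t] (S : Set V) := by
  classical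
  have := Fintype.ofFinite V
  induction h with
  | base v hv => exact ⟨0, hv⟩
  | force u v _ hD _ ih1 ih2 =>
    obtain ⟨t, ht⟩ := ih1
    choose! f hf using ih2
    let T := max t ((Finset.univ : Finset V).sup f)
    refine ⟨T + 1, ?_⟩
    rw [Function.iterate_succ_apply']
    refine Or.inr ⟨u, step_mono_iter D S (le_max_left _ _) ht, hD, ?_⟩
    refine le_trans (Set.ncard_le_ncard (t := {v}) ?_ (Set.finite_singleton v))
      (by rw [Set.ncard_singleton])
    rintro w ⟨hw1, hw2⟩
    by_contra hne
    refine hw2 (step_mono_iter D S ?_ (hf w hw1 hne))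
    exact (Finset.le_sup (f := f) (Finset.mem_univ w)).trans (le_max_right _ _)

lemma col_nonempty {D : V → V → Prop} {S : Finset V} {v : V} (h : Col D S v) : S.Nonempty := by
  induction h with
  | base v hv => exact ⟨v, hv⟩
  | force _ _ _ _ _ ih _ => exact ih

lemma forcing_of_col [Finite V] [Nonempty V] {D : V → V → Prop} {S : Finset V}
    (h : ∀ v, Col D S v) : IsForcing D S := by
  have := Fintype.ofFinite V
  refine ⟨col_nonempty (h (Classical.arbitrary V)), ?_⟩
  choose f hf using fun v => col_iter (h v)
  refine ⟨(Finset.univ : Finset V).sup f, Set.eq_univ_of_forall fun v => ?_⟩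
  exact step_mono_iter D S (Finset.le_sup (f := f) (Finset.mem_univ v)) (hf v)

/-- Two graphs joined by an edge. -/
def join (G : SimpleGraph V) (H : SimpleGraph W) (a : V) (b : W) : SimpleGraph (V ⊕ W) where
  Adj x y := match x, y with
    | .inl x, .inl y => G.Adj x y
    | .inr x, .inr y => H.Adj x y
    | .inl x, .inr y => x = a ∧ y = b
    | .inr x, .inl y => y = a ∧ x = b
  symm := ⟨by
    rintro (x | x) (y | y) h
    · exact G.adj_symm h
    · exact h
    · exact h
    · exact H.adj_symm h⟩
  loopless := ⟨by
    rintro (x | x) h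
    · exact G.loopless.irrefl _ h
    · exact H.loopless.irrefl _ h⟩

lemma join_connected {G : SimpleGraph V} {H : SimpleGraph W} (a : V) (b : W) (hG : G.Connected)
    (hH : H.Connected) : (join G H a b).Connected := by
  have i1 : ∀ x, (join G H a b).Reachable (Sum.inl a) (Sum.inl x) := fun x =>
    (hG.preconnected a x).map (⟨Sum.inl, fun h => h⟩ : G →g join G H a b)
  have i2 : ∀ x, (join G H a b).Reachable (Sum.inr b) (Sum.inr x) := fun x =>
    (hH.preconnected b x).map (⟨Sum.inr, fun h => h⟩ : H →g join G H a b)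
  have i3 : (join G H a b).Reachable (Sum.inl a) (Sum.inr b) :=
    SimpleGraph.Adj.reachable (show (join G H a b).Adj (Sum.inl a) (Sum.inr b) from ⟨rfl, rfl⟩)
  have i4 : ∀ z, (join G H a b).Reachable (Sum.inl a) z := by
    rintro (x | x)
    · exact i1 x
    · exact i3.trans (i2 x)
  have : Nonempty (V ⊕ W) := ⟨Sum.inl a⟩
  exact ⟨fun x y => (i4 x).symm.trans (i4 y)⟩

lemma join_col {G : SimpleGraph V} {H : SimpleGraph W} (a : V) (b : W) {D : V ⊕ W → V ⊕ W → Prop}
    (hD : IsOrientation (join G H a b) D) {S : Finset V} {T : Finset W}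
    (hS : ∀ v, Col (fun x y => D (Sum.inl x) (Sum.inl y)) S v)
    (hT : ∀ v, Col (fun x y => D (Sum.inr x) (Sum.inr y)) T v) :
    ∀ v, Col D (S.disjSum T) v := by
  rcases hD.adj_arc (Sum.inl a) (Sum.inr b) ⟨rfl, rfl⟩ with h | h
  · have c2 : ∀ v, Col D (S.disjSum T) (Sum.inr v) := by
      intro v
      induction hT v with
      | base v hv => exact .base _ (Finset.inr_mem_disjSum.2 hv)
      | force u v _ hd _ ih1 ih2 =>
        refine .force _ _ ih1 hd ?_
        rintro (w | w) hw hne
        · obtain ⟨rfl, rfl⟩ := hD.arc_adj _ _ hw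
          exact absurd hw (hD.asymm _ _ h)
        · exact ih2 w hw fun hh => hne (by rw [hh])
    have c1 : ∀ v, Col D (S.disjSum T) (Sum.inl v) := by
      intro v
      induction hS v with
      | base v hv => exact .base _ (Finset.inl_mem_disjSum.2 hv)
      | force u v _ hd _ ih1 ih2 =>
        refine .force _ _ ih1 hd ?_
        rintro (w | w) hw hne
        · exact ih2 w hw fun hh => hne (by rw [hh])
        · exact c2 w
    rintro (v | v)
    · exact c1 v
    · exact c2 v
  · have c1 : ∀ v, Col D (S.disjSum T) (Sum.inl v) := by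
      intro v
      induction hS v with
      | base v hv => exact .base _ (Finset.inl_mem_disjSum.2 hv)
      | force u v _ hd _ ih1 ih2 =>
        refine .force _ _ ih1 hd ?_
        rintro (w | w) hw hne
        · exact ih2 w hw fun hh => hne (by rw [hh])
        · obtain ⟨rfl, rfl⟩ := hD.arc_adj _ _ hw
          exact absurd hw (hD.asymm _ _ h)
    have c2 : ∀ v, Col D (S.disjSum T) (Sum.inr v) := by
      intro v
      induction hT v with
      | base v hv => exact .base _ (Finset.inr_mem_disjSum.2 hv)
      | force u v _ hd _ ih1 ih2 =>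
        refine .force _ _ ih1 hd ?_
        rintro (w | w) hw hne
        · exact c1 w
        · exact ih2 w hw fun hh => hne (by rw [hh])
    rintro (v | v)
    · exact c1 v
    · exact c2 v

end

/-- There is a connected graph of order `n` all of whose orientations have a forcing set with at
most `m` vertices. -/
def Good (n m : ℕ) : Prop :=
  ∃ (V : Type) (_ : Fintype V) (G : SimpleGraph V), Fintype.card V = n ∧ G.Connected ∧
    ∀ D : V → V → Prop, IsOrientation G D → ∃ S : Finset V, S.card ≤ m ∧ ∀ v, Col D S v

lemma Good.add {n m n' m' : ℕ} (h : Good n m) (h' : Good n' m') : Good (n + n') (m + m') := by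
  obtain ⟨V, _, G, hV, hG, h1⟩ := h
  obtain ⟨W, _, H, hW, hH, h2⟩ := h'
  obtain ⟨a⟩ := hG.nonempty
  obtain ⟨b⟩ := hH.nonempty
  refine ⟨V ⊕ W, inferInstance, join G H a b, by rw [Fintype.card_sum, hV, hW],
    join_connected a b hG hH, fun D hD => ?_⟩
  obtain ⟨S, hS, hS'⟩ := h1 (fun x y => D (Sum.inl x) (Sum.inl y))
    ⟨fun u v h => hD.arc_adj _ _ h, fun u v h => hD.adj_arc (Sum.inl u) (Sum.inl v) h,
      fun u v h => hD.asymm _ _ h⟩
  obtain ⟨T, hT, hT'⟩ := h2 (fun x y => D (Sum.inr x) (Sum.inr y))
    ⟨fun u v h => hD.arc_adj _ _ h, fun u v h => hD.adj_arc (Sum.inr u) (Sum.inr v) h,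
      fun u v h => hD.asymm _ _ h⟩
  exact ⟨S.disjSum T, by rw [Finset.card_disjSum]; omega, join_col a b hD hS' hT'⟩

lemma good_one : Good 1 1 := by
  refine ⟨Fin 1, inferInstance, ⊥, rfl, ?_, fun D hD => ⟨Finset.univ, by simp, fun v =>
    .base _ (Finset.mem_univ v)⟩⟩
  refine ⟨fun x y => ?_⟩
  rw [Subsingleton.elim x y]

lemma good_two : Good 2 1 := by
  refine ⟨Fin 2, inferInstance, ⊤, rfl, SimpleGraph.connected_top, fun D hD => ?_⟩
  rcases hD.adj_arc 0 1 (by decide) with h | h
  · refine ⟨{0}, by simp, fun v => ?_⟩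
    have h0 : Col D {0} 0 := .base _ (by simp)
    fin_cases v
    · exact h0
    · refine .force 0 1 h0 h fun w hw hne => ?_
      fin_cases w
      · exact h0
      · exact absurd rfl hne
  · refine ⟨{1}, by simp, fun v => ?_⟩
    have h0 : Col D {1} 1 := .base _ (by simp)
    fin_cases v
    · refine .force 1 0 h0 h fun w hw hne => ?_
      fin_cases w
      · exact absurd rfl hne
      · exact h0
    · exact h0

end Pool.Agent.H41.OZ
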