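import Pool.Agent.H41.OZ.A

/-! The truncated Petersen graph, and graphs of every order at least 30. -/

set_option autoImplicit false

namespace Pool.Agent.H41.OZ

/-- distance from the port 0 in the truncated Petersen graph -/
def rk (x : Fin 30) : ℕ :=
  [0, 1, 1, 1, 2, 2, 3, 4, 4, 5, 4, 5, 2, 3, 3, 2, 3, 3, 3, 4, 4, 5, 4, 5, 5, 4, 5, 4, 5, 5].getD x 0

lemma rk_facts : ∀ x : Fin 30, x = 0 ∨ ∃ y : Fin 30, (x ≠ y ∧ (x.val / 3 = y.val / 3 ∨
    R198.MOFC.pr x.val = y.val)) ∧ rk y < rk x := by
  decide +kernel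

lemma g30_connected : R198.MOFC.G30.Connected := by
  have key : ∀ (m : ℕ) (x : Fin 30), rk x ≤ m → R198.MOFC.G30.Reachable x 0 := by
    intro m
    induction m with
    | zero =>
      intro x hx
      rcases rk_facts x with rfl | ⟨y, -, hy⟩
      · exact SimpleGraph.Reachable.refl _
      · omega
    | succ m ih =>
      intro x hx
      rcases rk_facts x with rfl | ⟨y, h1, hy⟩
      · exact SimpleGraph.Reachable.refl _
      · exact (SimpleGraph.Adj.reachable (show R198.MOFC.G30.Adj x y from h1)).trans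
          (ih y (by omega))
  exact ⟨fun x y => (key _ x le_rfl).trans (key _ y le_rfl).symm⟩

lemma good_thirty : Good 30 14 := by
  refine ⟨Fin 30, inferInstance, R198.MOFC.G30, by simp, g30_connected, fun D hD => ?_⟩
  obtain ⟨S, -, hc, hfin⟩ := R198.MOFC.final D hD.arc_adj hD.adj_arc hD.asymm
  refine ⟨S, hc, ?_⟩
  obtain ⟨t, ht⟩ := hfin (fun _ => {v | Col D S v}) (fun x hx => .base x hx)
    (fun _ => subset_rfl) (fun _ u v hu hd hw => .force u v hu hd hw)
  intro v
  have : v ∈ {v | Col D S v} := by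
    rw [ht]
    trivial
  exact this

lemma good_path (a b : ℕ) {n m : ℕ} (h : Good n m) : Good (n + 2 * a + b) (m + a + b) := by
  induction b with
  | zero =>
    induction a with
    | zero => exact h
    | succ a ih =>
      have := ih.add good_two
      convert this using 1 <;> ring
  | succ b ih => exact ih.add good_one

lemma good_mul (k : ℕ) : Good (30 * (k + 1)) (14 * (k + 1)) := by
  induction k with
  | zero => exact good_thirty
  | succ k ih => exact ih.add good_thirty

lemma good_all {n : ℕ} (hn : 30 ≤ n) : Good n (14 * (n / 30) + (n % 30 + 1) / 2) := by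
  have h1 := good_path (n % 30 / 2) (n % 30 % 2) (good_mul (n / 30 - 1))
  have e1 : 30 * (n / 30 - 1 + 1) + 2 * (n % 30 / 2) + n % 30 % 2 = n := by omega
  have e2 : 14 * (n / 30 - 1 + 1) + n % 30 / 2 + n % 30 % 2 =
      14 * (n / 30) + (n % 30 + 1) / 2 := by omega
  rwa [e1, e2] at h1

lemma exists_fin {n m : ℕ} (hn : 0 < n) (h : Good n m) : ∃ G : SimpleGraph (Fin n), G.Connected ∧
    ∀ D : Fin n → Fin n → Prop, IsOrientation G D → F D ≤ m := by
  classical
  obtain ⟨V, _, G, hV, hG, h1⟩ := h
  let e : V ≃ Fin n := Fintype.equivFinOfCardEq hV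
  have : Nonempty (Fin n) := ⟨⟨0, hn⟩⟩
  refine ⟨G.comap e.symm, (SimpleGraph.Iso.comap e.symm G).connected_iff.2 hG, fun D hD => ?_⟩
  obtain ⟨S, hS, hS'⟩ := h1 (fun x y => D (e x) (e y))
    ⟨fun u v h => by simpa using hD.arc_adj _ _ h,
      fun u v h => hD.adj_arc (e u) (e v) (by simpa using h), fun u v h => hD.asymm _ _ h⟩
  have key : ∀ v, Col (fun x y => D (e x) (e y)) S v → Col D (S.map e.toEmbedding) (e v) := by
    intro v hv
    induction hv with
    | base v hv => exact .base _ (Finset.mem_map_of_mem _ hv)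
    | force u v _ hd _ ih1 ih2 =>
      refine .force _ _ ih1 hd fun w hw hne => ?_
      have := ih2 (e.symm w) (by simpa using hw) fun hh => hne (by rw [← hh]; simp)
      simpa using this
  have hall : ∀ v, Col D (S.map e.toEmbedding) v := by
    intro v
    have := key (e.symm v) (hS' _)
    simpa using this
  refine le_trans (Nat.sInf_le ⟨S.map e.toEmbedding, forcing_of_col hall, rfl⟩) ?_
  rw [Finset.card_map]
  exact hS

end Pool.Agent.H41.OZ
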